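import Mathlib

/-!
# A permutation of `ℕ` built by finite approximations with fresh endpoints

Let `E` be a relation on `ℕ` such that no finite set meets all `E`-classes and let `γ 0, γ 1, …` be
self-maps of `ℕ`. We build a permutation `h` of `ℕ`, pair by pair. The pair `(x, h x)` is added at
the stage `τ x`; one of its two endpoints, `f x`, is fresh: it is not `E`-related to `γ i v` for
`i ≤ τ x` and `v` one of the points used before or the other endpoint `o x`.
-/

set_option autoImplicit false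

namespace Pool.Agent.H79.MCG

open Set

/-- The points which occur in a list of pairs. -/
def pts (L : List (ℕ × ℕ)) : List ℕ := L.map Prod.fst ++ L.map Prod.snd

theorem fst_mem_pts {L : List (ℕ × ℕ)} {p : ℕ × ℕ} (h : p ∈ L) : p.1 ∈ pts L :=
  List.mem_append_left _ (List.mem_map_of_mem h)

theorem snd_mem_pts {L : List (ℕ × ℕ)} {p : ℕ × ℕ} (h : p ∈ L) : p.2 ∈ pts L :=
  List.mem_append_right _ (List.mem_map_of_mem h)

theorem exists_fresh {E : ℕ → ℕ → Prop} (hE : ∀ F : Finset ℕ, ∃ y, ∀ x ∈ F, ¬ E x y)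
    (γ : ℕ → ℕ → ℕ) (t n : ℕ) (L : List (ℕ × ℕ)) :
    ∃ f, ∀ i ≤ t, ∀ v ∈ n :: pts L, ¬ E (γ i v) f := by
  obtain ⟨y, hy⟩ := hE ((Finset.range (t + 1)).biUnion fun i =>
    (n :: pts L).toFinset.image (γ i))
  refine ⟨y, fun i hi v hv => hy _ ?_⟩
  rw [Finset.mem_biUnion]
  exact ⟨i, Finset.mem_range.2 (by omega), Finset.mem_image.2 ⟨v, List.mem_toFinset.2 hv, rfl⟩⟩

section

variable (fr : ℕ → ℕ → List (ℕ × ℕ) → ℕ)

/-- One stage of the construction. -/
def stp (t : ℕ) (L : List (ℕ × ℕ)) : List (ℕ × ℕ) :=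
  if t % 2 = 0 then
    if t / 2 ∈ L.map Prod.fst then L else (t / 2, fr t (t / 2) L) :: L
  else
    if t / 2 ∈ L.map Prod.snd then L else (fr t (t / 2) L, t / 2) :: L

/-- The finite approximations. -/
def Ls : ℕ → List (ℕ × ℕ)
  | 0 => []
  | t + 1 => stp fr t (Ls t)

theorem stp_cases {fr : ℕ → ℕ → List (ℕ × ℕ) → ℕ} (hfr : ∀ t n L, fr t n L ∉ n :: pts L)
    (t : ℕ) (L : List (ℕ × ℕ)) :
    stp fr t L = L ∨ ∃ x y f o : ℕ, stp fr t L = (x, y) :: L ∧ x ∉ L.map Prod.fst ∧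
      y ∉ L.map Prod.snd ∧ ((f = x ∧ o = y) ∨ (f = y ∧ o = x)) ∧ f = fr t o L := by
  unfold stp
  have hf : ∀ n, fr t n L ∉ pts L := fun n h => hfr t n L (List.mem_cons_of_mem _ h)
  split_ifs with h1 h2 h3
  · exact Or.inl rfl
  · refine Or.inr ⟨t / 2, fr t (t / 2) L, fr t (t / 2) L, t / 2, rfl, h2, ?_, Or.inr ⟨rfl, rfl⟩,
      rfl⟩
    intro h
    exact hf _ (List.mem_append_right _ h)
  · exact Or.inl rfl
  · refine Or.inr ⟨fr t (t / 2) L, t / 2, fr t (t / 2) L, t / 2, rfl, ?_, h3, Or.inl ⟨rfl, rfl⟩,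
      rfl⟩
    intro h
    exact hf _ (List.mem_append_left _ h)

theorem mem_Ls_succ {fr : ℕ → ℕ → List (ℕ × ℕ) → ℕ} (hfr : ∀ t n L, fr t n L ∉ n :: pts L)
    {t : ℕ} {p : ℕ × ℕ} (hp : p ∈ Ls fr t) : p ∈ Ls fr (t + 1) := by
  show p ∈ stp fr t (Ls fr t)
  rcases stp_cases hfr t (Ls fr t) with h | ⟨x, y, f, o, h, -⟩
  · rw [h]; exact hp
  · rw [h]; exact List.mem_cons_of_mem _ hp

theorem mem_Ls_mono {fr : ℕ → ℕ → List (ℕ × ℕ) → ℕ} (hfr : ∀ t n L, fr t n L ∉ n :: pts L)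
    {s t : ℕ} (hst : s ≤ t) {p : ℕ × ℕ} (hp : p ∈ Ls fr s) : p ∈ Ls fr t := by
  induction t, hst using Nat.le_induction with
  | base => exact hp
  | succ t _ ih => exact mem_Ls_succ hfr ih

theorem Ls_unique {fr : ℕ → ℕ → List (ℕ × ℕ) → ℕ} (hfr : ∀ t n L, fr t n L ∉ n :: pts L)
    (t : ℕ) : (∀ x y y', (x, y) ∈ Ls fr t → (x, y') ∈ Ls fr t → y = y') ∧
      (∀ x x' y, (x, y) ∈ Ls fr t → (x', y) ∈ Ls fr t → x = x') := by
  induction t with
  | zero =>
    constructor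
    · intro x y y' h
      exact absurd h (by simp [Ls])
    · intro x x' y h
      exact absurd h (by simp [Ls])
  | succ t ih =>
    rw [show Ls fr (t + 1) = stp fr t (Ls fr t) from rfl]
    rcases stp_cases hfr t (Ls fr t) with h | ⟨a, b, f, o, h, ha, hb, -⟩
    · rw [h]; exact ih
    · rw [h]
      constructor
      · intro x y y' h1 h2
        rw [List.mem_cons] at h1 h2
        rcases h1 with h1 | h1 <;> rcases h2 with h2 | h2
        · rw [Prod.mk.injEq] at h1 h2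
          rw [h1.2, h2.2]
        · rw [Prod.mk.injEq] at h1
          exact absurd (List.mem_map_of_mem (f := Prod.fst) h2) (by rw [h1.1]; exact ha)
        · rw [Prod.mk.injEq] at h2
          exact absurd (List.mem_map_of_mem (f := Prod.fst) h1) (by rw [h2.1]; exact ha)
        · exact ih.1 x y y' h1 h2
      · intro x x' y h1 h2
        rw [List.mem_cons] at h1 h2
        rcases h1 with h1 | h1 <;> rcases h2 with h2 | h2
        · rw [Prod.mk.injEq] at h1 h2
          rw [h1.1, h2.1]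
        · rw [Prod.mk.injEq] at h1
          exact absurd (List.mem_map_of_mem (f := Prod.snd) h2) (by rw [h1.2]; exact hb)
        · rw [Prod.mk.injEq] at h2
          exact absurd (List.mem_map_of_mem (f := Prod.snd) h1) (by rw [h2.2]; exact hb)
        · exact ih.2 x x' y h1 h2

theorem fst_mem_Ls (fr : ℕ → ℕ → List (ℕ × ℕ) → ℕ) (n : ℕ) :
    n ∈ (Ls fr (2 * n + 1)).map Prod.fst := by
  show n ∈ (stp fr (2 * n) (Ls fr (2 * n))).map Prod.fst
  unfold stp
  rw [if_pos (by omega), show 2 * n / 2 = n by omega]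
  split_ifs with h
  · exact h
  · simp

theorem snd_mem_Ls (fr : ℕ → ℕ → List (ℕ × ℕ) → ℕ) (n : ℕ) :
    n ∈ (Ls fr (2 * n + 2)).map Prod.snd := by
  show n ∈ (stp fr (2 * n + 1) (Ls fr (2 * n + 1))).map Prod.snd
  unfold stp
  rw [if_neg (by omega), show (2 * n + 1) / 2 = n by omega]
  split_ifs with h
  · exact h
  · simp

end

/-- The construction of the permutation. -/
theorem build {E : ℕ → ℕ → Prop} (hE : ∀ F : Finset ℕ, ∃ y, ∀ x ∈ F, ¬ E x y)
    (γ : ℕ → ℕ → ℕ) (hγ : ∀ v, E (γ 0 v) v) :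
    ∃ (h : Equiv.Perm ℕ) (τ f o : ℕ → ℕ), Function.Injective τ ∧
      (∀ x, (f x = x ∧ o x = h x) ∨ (f x = h x ∧ o x = x)) ∧
      (∀ x, ∀ i ≤ τ x, ¬ E (γ i (o x)) (f x)) ∧
      ∀ x x', τ x' < τ x → ∀ i ≤ τ x, ¬ E (γ i x') (f x) ∧ ¬ E (γ i (h x')) (f x) := by
  choose fr hfr0 using exists_fresh hE γ
  have hfr : ∀ t n L, fr t n L ∉ n :: pts L := by
    intro t n L hmem
    exact hfr0 t n L 0 (Nat.zero_le _) _ hmem (hγ _)
  -- the function
  have hex : ∀ x, ∃ y, (x, y) ∈ Ls fr (2 * x + 1) := by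
    intro x
    obtain ⟨⟨a, b⟩, hp, hpx⟩ := List.mem_map.1 (fst_mem_Ls fr x)
    replace hpx : a = x := hpx
    subst hpx
    exact ⟨b, hp⟩
  choose H hH using hex
  have hval : ∀ t x y, (x, y) ∈ Ls fr t → y = H x := by
    intro t x y hxy
    exact (Ls_unique hfr (max t (2 * x + 1))).1 x y (H x) (mem_Ls_mono hfr (le_max_left _ _) hxy)
      (mem_Ls_mono hfr (le_max_right _ _) (hH x))
  have hbij : Function.Bijective H := by
    constructor
    · intro x x' hxx
      have h1 := mem_Ls_mono hfr (le_max_left (2 * x + 1) (2 * x' + 1)) (hH x)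
      have h2 := mem_Ls_mono hfr (le_max_right (2 * x + 1) (2 * x' + 1)) (hH x')
      rw [hxx] at h1
      exact (Ls_unique hfr _).2 x x' _ h1 h2
    · intro y
      obtain ⟨p, hp, hpy⟩ := List.mem_map.1 (snd_mem_Ls fr y)
      refine ⟨p.1, ?_⟩
      have := hval _ p.1 p.2 hp
      rw [← this, hpy]
  -- stages
  have hst : ∀ x, ∃ t, x ∈ (Ls fr (t + 1)).map Prod.fst := fun x => ⟨2 * x, fst_mem_Ls fr x⟩
  classical
  set τ : ℕ → ℕ := fun x => Nat.find (hst x) with hτ
  have hmem : ∀ x t, x ∈ (Ls fr t).map Prod.fst → (x, H x) ∈ Ls fr t := by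
    intro x t hx
    obtain ⟨p, hp, hpx⟩ := List.mem_map.1 hx
    have := hval t p.1 p.2 hp
    rw [← hpx, ← this]
    exact hp
  have hτmem : ∀ x, (x, H x) ∈ Ls fr (τ x + 1) := fun x => hmem _ _ (Nat.find_spec (hst x))
  have hτnot : ∀ x, x ∉ (Ls fr (τ x)).map Prod.fst := by
    intro x hx
    rcases hτx : τ x with _ | s
    · rw [hτx] at hx
      exact absurd hx (by simp [Ls])
    · rw [hτx] at hx
      exact Nat.find_min (hst x) (m := s) (by show s < τ x; omega) hx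
  have key : ∀ x, ∃ f o, Ls fr (τ x + 1) = (x, H x) :: Ls fr (τ x) ∧
      ((f = x ∧ o = H x) ∨ (f = H x ∧ o = x)) ∧ f = fr (τ x) o (Ls fr (τ x)) := by
    intro x
    have h1 : Ls fr (τ x + 1) = stp fr (τ x) (Ls fr (τ x)) := rfl
    rcases stp_cases hfr (τ x) (Ls fr (τ x)) with h | ⟨a, b, f, o, h, -, -, h2, h3⟩
    · exfalso
      apply hτnot x
      have h4 := hτmem x
      rw [h1, h] at h4
      exact List.mem_map_of_mem (f := Prod.fst) h4
    · have h4 := hτmem x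
      rw [h1, h, List.mem_cons] at h4
      rcases h4 with h4 | h4
      · rw [Prod.mk.injEq] at h4
        refine ⟨f, o, ?_, ?_, h3⟩
        · rw [h1, h, h4.1, ← h4.2, ← h4.1]
        · rw [h4.1, ← h4.1, h4.2]
          rw [← h4.1] at h2
          exact h2
      · exact absurd (List.mem_map_of_mem (f := Prod.fst) h4) (hτnot x)
  choose f o hLs hfo hf using key
  refine ⟨Equiv.ofBijective H hbij, τ, f, o, ?_, hfo, ?_, ?_⟩
  · intro x x' hxx
    have h1 := hLs x
    have h2 := hLs x'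
    rw [hxx] at h1
    rw [h1, List.cons.injEq, Prod.mk.injEq] at h2
    exact h2.1.1
  · intro x i hi
    rw [hf x]
    exact hfr0 _ _ _ i hi _ List.mem_cons_self
  · intro x x' hlt i hi
    have h1 : (x', H x') ∈ Ls fr (τ x) := mem_Ls_mono hfr hlt (hτmem x')
    constructor
    · rw [hf x]
      exact hfr0 _ _ _ i hi _ (List.mem_cons_of_mem _ (fst_mem_pts h1))
    · rw [hf x]
      exact hfr0 _ _ _ i hi _ (List.mem_cons_of_mem _ (snd_mem_pts h1))

end Pool.Agent.H79.MCG
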