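import Pool.Agent.H79.MCG.NonMax

/-!
# A closed group all of whose finite pointwise stabilizers have finitely many orbits is not
cofinitary
-/

set_option autoImplicit false

namespace Pool.Agent.H79.MCG

open Set Filter

/-- A finite list of pairs `(x, b)` is good if for almost all `k` some element of `G` maps every
`x` to `b k`. -/
def Good (G : Subgroup (Equiv.Perm ℕ)) (L : List (ℕ × (ℕ → ℕ))) : Prop :=
  ∀ᶠ k in (hyperfilter ℕ : Filter ℕ), ∃ g ∈ G, ∀ p ∈ L, g p.1 = p.2 k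

theorem good_addPoint {G : Subgroup (Equiv.Perm ℕ)} {L : List (ℕ × (ℕ → ℕ))} (hL : Good G L)
    (x : ℕ) : ∃ b, Good G ((x, b) :: L) := by
  classical
  have h : ∀ k, ∃ y, (∃ g ∈ G, ∀ p ∈ L, g p.1 = p.2 k) →
      ∃ g ∈ G, (∀ p ∈ L, g p.1 = p.2 k) ∧ g x = y := by
    intro k
    by_cases hk : ∃ g ∈ G, ∀ p ∈ L, g p.1 = p.2 k
    · obtain ⟨g, hg, h1⟩ := hk
      exact ⟨g x, fun _ => ⟨g, hg, h1, rfl⟩⟩
    · exact ⟨0, fun h => absurd h hk⟩
  choose b hb using h
  refine ⟨b, ?_⟩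
  filter_upwards [hL] with k hk
  obtain ⟨g, hg, h1, h2⟩ := hb k hk
  refine ⟨g, hg, fun p hp => ?_⟩
  rcases List.mem_cons.1 hp with rfl | hp
  · exact h2
  · exact h1 p hp

theorem good_addSeq {G : Subgroup (Equiv.Perm ℕ)}
    (hol : ∀ B : Finset ℕ, ∃ F : Finset ℕ, ∀ y, ∃ x ∈ F, Rel G B x y)
    {L : List (ℕ × (ℕ → ℕ))} (hL : Good G L) (b : ℕ → ℕ) : ∃ x, Good G ((x, b) :: L) := by
  classical
  obtain ⟨F, hF⟩ := hol (L.map Prod.fst).toFinset
  have h1 : ∀ᶠ k in (hyperfilter ℕ : Filter ℕ), ∃ x ∈ (F : Set ℕ), ∃ g ∈ G,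
      ∀ p ∈ (x, b) :: L, g p.1 = p.2 k := by
    filter_upwards [hL] with k hk
    obtain ⟨g, hg, h1⟩ := hk
    obtain ⟨x, hx, u, hu, huB, hux⟩ := hF (g⁻¹ (b k))
    refine ⟨x, hx, g * u, G.mul_mem hg hu, fun p hp => ?_⟩
    rcases List.mem_cons.1 hp with rfl | hp
    · show g (u x) = b k
      rw [hux]; simp
    · show g (u p.1) = p.2 k
      rw [huB p.1 (List.mem_toFinset.2 (List.mem_map_of_mem hp)), h1 p hp]
  obtain ⟨x, -, hx⟩ := (Ultrafilter.eventually_exists_mem_iff F.finite_toSet).1 h1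
  exact ⟨x, hx⟩

theorem good_mono {G : Subgroup (Equiv.Perm ℕ)} {L L' : List (ℕ × (ℕ → ℕ))} (hL : Good G L)
    (h : ∀ p ∈ L', p ∈ L) : Good G L' := by
  filter_upwards [hL] with k hk
  obtain ⟨g, hg, h1⟩ := hk
  exact ⟨g, hg, fun p hp => h1 p (h p hp)⟩

/-- A closed group all of whose finite pointwise stabilizers have finitely many orbits contains a
nonidentity element with infinitely many fixed points. -/
theorem exists_infinite_fix (G : Subgroup (Equiv.Perm ℕ))
    (hcl : ∀ σ : Equiv.Perm ℕ, σ ∉ G →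
      ∃ n : ℕ, ∀ τ : Equiv.Perm ℕ, (∀ i < n, τ i = σ i) → τ ∉ G)
    (hol : ∀ B : Finset ℕ, ∃ F : Finset ℕ, ∀ y, ∃ x ∈ F, Rel G B x y) :
    ∃ g ∈ G, g ≠ 1 ∧ {x : ℕ | g x = x}.Infinite := by
  classical
  -- small nonidentity elements
  have hσ : ∀ k : ℕ, ∃ s : Equiv.Perm ℕ, s ∈ G ∧ (∀ i < k, s i = i) ∧ ∃ y, s y ≠ y := by
    intro k
    obtain ⟨F, hF⟩ := hol (Finset.range k)
    obtain ⟨y, hy⟩ := Infinite.exists_notMem_finset F
    obtain ⟨x, hx, u, hu, hub, hux⟩ := hF y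
    refine ⟨u, hu, fun i hi => hub i (Finset.mem_range.2 hi), x, ?_⟩
    intro h
    apply hy
    rw [← hux, h]; exact hx
  choose s hsG hsfix b0 hb0 using hσ
  -- one step of the construction
  have step : ∀ (L : {L : List (ℕ × (ℕ → ℕ)) // Good G L}) (n : ℕ),
      ∃ L' : {L : List (ℕ × (ℕ → ℕ)) // Good G L}, (∀ p ∈ L.1, p ∈ L'.1) ∧
        ∃ (b : ℕ → ℕ) (y y' z : ℕ), (n, b) ∈ L'.1 ∧ (y, fun k => s k (b k)) ∈ L'.1 ∧
          (y', fun k => (s k)⁻¹ (b k)) ∈ L'.1 ∧ (z, fun _ => n) ∈ L'.1 := by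
    rintro ⟨L, hL⟩ n
    obtain ⟨b, h1⟩ := good_addPoint hL n
    obtain ⟨y, h2⟩ := good_addSeq hol h1 (fun k => s k (b k))
    obtain ⟨y', h3⟩ := good_addSeq hol h2 (fun k => (s k)⁻¹ (b k))
    obtain ⟨z, h4⟩ := good_addSeq hol h3 (fun _ => n)
    exact ⟨⟨_, h4⟩, fun p hp => by simp [hp], b, y, y', z, by simp, by simp, by simp, by simp⟩
  choose nxt hsub bb yy yy' zz hb hy hy' hz using step
  have hnil : Good G [] := Eventually.of_forall fun k => ⟨1, G.one_mem, by simp⟩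
  obtain ⟨x0, hx0⟩ := good_addSeq hol hnil b0
  set S : ℕ → {L : List (ℕ × (ℕ → ℕ)) // Good G L} :=
    fun n => Nat.rec ⟨_, hx0⟩ (fun n L => nxt L n) n with hSdef
  have hS : ∀ n, S (n + 1) = nxt (S n) n := fun n => rfl
  have hmono : ∀ {m n : ℕ}, m ≤ n → ∀ p ∈ (S m).1, p ∈ (S n).1 := by
    intro m n hmn
    induction n, hmn using Nat.le_induction with
    | base => exact fun p hp => hp
    | succ n _ ih => exact fun p hp => by rw [hS]; exact hsub _ _ p (ih p hp)
  -- everything in sight is good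
  have hgood : ∀ L : List (ℕ × (ℕ → ℕ)), (∀ p ∈ L, ∃ n, p ∈ (S n).1) → Good G L := by
    intro L hL
    have : ∃ n, ∀ p ∈ L, p ∈ (S n).1 := by
      induction L with
      | nil => exact ⟨0, by simp⟩
      | cons a L ih =>
        obtain ⟨n, hn⟩ := ih (fun p hp => hL p (List.mem_cons_of_mem _ hp))
        obtain ⟨m, hm⟩ := hL a List.mem_cons_self
        refine ⟨max m n, fun p hp => ?_⟩
        rcases List.mem_cons.1 hp with rfl | hp
        · exact hmono (le_max_left _ _) _ hm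
        · exact hmono (le_max_right _ _) _ (hn p hp)
    obtain ⟨n, hn⟩ := this
    exact good_mono (S n).2 hn
  have hbS : ∀ x, ∃ n, (x, bb (S x) x) ∈ (S n).1 := fun x => ⟨x + 1, by rw [hS]; exact hb _ _⟩
  have hyS : ∀ x, ∃ n, (yy (S x) x, fun k => s k (bb (S x) x k)) ∈ (S n).1 :=
    fun x => ⟨x + 1, by rw [hS]; exact hy _ _⟩
  have hy'S : ∀ x, ∃ n, (yy' (S x) x, fun k => (s k)⁻¹ (bb (S x) x k)) ∈ (S n).1 :=
    fun x => ⟨x + 1, by rw [hS]; exact hy' _ _⟩
  have hzS : ∀ x, ∃ n, (zz (S x) x, fun _ : ℕ => x) ∈ (S n).1 :=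
    fun x => ⟨x + 1, by rw [hS]; exact hz _ _⟩
  have hx0S : ∃ n, (x0, b0) ∈ (S n).1 := ⟨0, by simp [hSdef]⟩
  set B : ℕ → ℕ → ℕ := fun x => bb (S x) x with hBdef
  set gf : ℕ → ℕ := fun x => yy (S x) x with hgf
  set gi : ℕ → ℕ := fun x => yy' (S x) x with hgi
  set Z : ℕ → ℕ := fun x => zz (S x) x with hZdef
  -- evaluation of finitely many pairs at a common large `k`
  have hev : ∀ (L : List (ℕ × (ℕ → ℕ))), (∀ p ∈ L, ∃ n, p ∈ (S n).1) → ∀ N : ℕ,
      ∃ k, N ≤ k ∧ ∃ g ∈ G, ∀ p ∈ L, g p.1 = p.2 k := by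
    intro L hL N
    have h1 : ∀ᶠ k in (hyperfilter ℕ : Filter ℕ), N ≤ k :=
      (eventually_ge_atTop N).filter_mono Nat.hyperfilter_le_atTop
    obtain ⟨k, h2, h3⟩ := (h1.and (hgood L hL)).exists
    exact ⟨k, h2, h3⟩
  have hgi_gf : ∀ x, gi (gf x) = x := by
    intro x
    obtain ⟨k, -, g, hg, hp⟩ := hev [(x, B x), (gf x, fun k => s k (B x k)),
      (gf x, B (gf x)), (gi (gf x), fun k => (s k)⁻¹ (B (gf x) k))]
      (by
        intro p hp
        simp only [List.mem_cons, List.not_mem_nil, or_false] at hp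
        rcases hp with rfl | rfl | rfl | rfl
        · exact hbS x
        · exact hyS x
        · exact hbS (gf x)
        · exact hy'S (gf x)) 0
    simp only [List.mem_cons, List.not_mem_nil, or_false, forall_eq_or_imp, forall_eq] at hp
    obtain ⟨h1, h2, h3, h4⟩ := hp
    apply g.injective
    rw [h4, h1, ← h3, h2]
    simp
  have hgf_gi : ∀ x, gf (gi x) = x := by
    intro x
    obtain ⟨k, -, g, hg, hp⟩ := hev [(x, B x), (gi x, fun k => (s k)⁻¹ (B x k)),
      (gi x, B (gi x)), (gf (gi x), fun k => s k (B (gi x) k))]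
      (by
        intro p hp
        simp only [List.mem_cons, List.not_mem_nil, or_false] at hp
        rcases hp with rfl | rfl | rfl | rfl
        · exact hbS x
        · exact hy'S x
        · exact hbS (gi x)
        · exact hyS (gi x)) 0
    simp only [List.mem_cons, List.not_mem_nil, or_false, forall_eq_or_imp, forall_eq] at hp
    obtain ⟨h1, h2, h3, h4⟩ := hp
    apply g.injective
    rw [h4, h1, ← h3, h2]
    simp
  set σ : Equiv.Perm ℕ := ⟨gf, gi, hgi_gf, hgf_gi⟩ with hσdef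
  have hσapp : ∀ x, σ x = gf x := fun x => rfl
  refine ⟨σ, ?_, ?_, ?_⟩
  · by_contra hnot
    obtain ⟨n, hn⟩ := hcl σ hnot
    obtain ⟨k, -, g, hg, hp⟩ := hev
      ((List.range n).map (fun i => (i, B i)) ++
        (List.range n).map (fun i => (gf i, fun k => s k (B i k))))
      (by
        intro p hp
        rw [List.mem_append, List.mem_map, List.mem_map] at hp
        rcases hp with ⟨i, -, rfl⟩ | ⟨i, -, rfl⟩
        · exact hbS i
        · exact hyS i) 0
    refine hn (g⁻¹ * s k * g) ?_ (G.mul_mem (G.mul_mem (G.inv_mem hg) (hsG k)) hg)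
    intro i hi
    have h1 : g i = B i k := hp (i, B i)
      (List.mem_append_left _ (List.mem_map.2 ⟨i, List.mem_range.2 hi, rfl⟩))
    have h2 : g (gf i) = s k (B i k) := hp (gf i, fun k => s k (B i k))
      (List.mem_append_right _ (List.mem_map.2 ⟨i, List.mem_range.2 hi, rfl⟩))
    rw [Equiv.Perm.mul_apply, Equiv.Perm.mul_apply, h1, ← h2, hσapp]
    simp
  · intro h1
    obtain ⟨k, -, g, hg, hp⟩ := hev [(x0, b0), (x0, B x0), (gf x0, fun k => s k (B x0 k))]
      (by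
        intro p hp
        simp only [List.mem_cons, List.not_mem_nil, or_false] at hp
        rcases hp with rfl | rfl | rfl
        · exact hx0S
        · exact hbS x0
        · exact hyS x0) 0
    simp only [List.mem_cons, List.not_mem_nil, or_false, forall_eq_or_imp, forall_eq] at hp
    obtain ⟨h2, h3, h4⟩ := hp
    have h5 : gf x0 = x0 := by rw [← hσapp, h1]; rfl
    apply hb0 k
    rw [← h2, h3, ← h4, h5, h3]
  · apply infinite_of_injective_forall_mem (f := Z)
    · intro n m hnm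
      obtain ⟨k, -, g, hg, hp⟩ := hev [(Z n, fun _ : ℕ => n), (Z m, fun _ : ℕ => m)]
        (by
          intro p hp
          simp only [List.mem_cons, List.not_mem_nil, or_false] at hp
          rcases hp with rfl | rfl
          · exact hzS n
          · exact hzS m) 0
      simp only [List.mem_cons, List.not_mem_nil, or_false, forall_eq_or_imp, forall_eq] at hp
      rw [← hp.1, ← hp.2, hnm]
    · intro n
      show gf (Z n) = Z n
      obtain ⟨k, hk, g, hg, hp⟩ := hev [(Z n, fun _ : ℕ => n), (Z n, B (Z n)),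
        (gf (Z n), fun k => s k (B (Z n) k))]
        (by
          intro p hp
          simp only [List.mem_cons, List.not_mem_nil, or_false] at hp
          rcases hp with rfl | rfl | rfl
          · exact hzS n
          · exact hbS (Z n)
          · exact hyS (Z n)) (n + 1)
      simp only [List.mem_cons, List.not_mem_nil, or_false, forall_eq_or_imp, forall_eq] at hp
      obtain ⟨h1, h2, h3⟩ := hp
      apply g.injective
      rw [h3, ← h2, h1, hsfix k n (by omega)]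

/-- There is no closed maximal cofinitary group. -/
theorem no_closed_mcg : ¬ (∃ G : Subgroup (Equiv.Perm ℕ),
      (∀ σ : Equiv.Perm ℕ, σ ∉ G →
        ∃ n : ℕ, ∀ τ : Equiv.Perm ℕ, (∀ i < n, τ i = σ i) → τ ∉ G) ∧
      (∀ g ∈ G, g ≠ 1 → {x : ℕ | g x = x}.Finite) ∧
      (∀ H : Subgroup (Equiv.Perm ℕ), G ≤ H →
        (∀ h ∈ H, h ≠ 1 → {x : ℕ | h x = x}.Finite) → H = G)) := by
  rintro ⟨G, hcl, hG, hmax⟩
  by_cases hol : ∀ B : Finset ℕ, ∃ F : Finset ℕ, ∀ y, ∃ x ∈ F, Rel G B x y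
  · obtain ⟨g, hg, hg1, hinf⟩ := exists_infinite_fix G hcl hol
    exact hinf (hG g hg hg1)
  · push Not at hol
    obtain ⟨B, hB⟩ := hol
    obtain ⟨H, hle, hH, hne⟩ := exists_overgroup G hG B hB
    exact hne (hmax H hle hH)

end Pool.Agent.H79.MCG
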