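import Mathlib
import Pool.Agent.H79.MCG.Olig

/-!
# Maximal cofinitary groups: definitions and the main facts
-/

namespace Pool.Agent.H79.MCG

/-- `G` is cofinitary: every element different from the identity has only finitely many fixed
points. -/
def Cofinitary (G : Subgroup (Equiv.Perm ℕ)) : Prop :=
  ∀ g ∈ G, g ≠ 1 → {n : ℕ | g n = n}.Finite

/-- `G` is a maximal cofinitary group: it is cofinitary and no cofinitary group properly
contains it. -/
def IsMCG (G : Subgroup (Equiv.Perm ℕ)) : Prop :=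
  Cofinitary G ∧ ∀ H : Subgroup (Equiv.Perm ℕ), Cofinitary H → ¬ G < H

/-- `A` is a closed subset of `Sym(ℕ)` in the topology of pointwise convergence, the topology
induced by the product topology of `ℕ → ℕ`. -/
def ClosedSet (A : Set (Equiv.Perm ℕ)) : Prop :=
  ∃ C : Set (ℕ → ℕ), IsClosed C ∧ ∀ σ : Equiv.Perm ℕ, σ ∈ A ↔ (σ : ℕ → ℕ) ∈ C

/-- The permutation `σ` extends the finite sequence `l`. -/
def Extends (σ : Equiv.Perm ℕ) (l : List ℕ) : Prop := ∀ (i : ℕ) (hi : i < l.length), σ i = l[i]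

/-- `A` is a `Π⁰₁` subset of `Sym(ℕ)`: its complement is the union of a computably enumerable
family of basic open sets. -/
def Pi01 (A : Set (Equiv.Perm ℕ)) : Prop :=
  ∃ U : List ℕ → Prop, REPred U ∧ ∀ σ : Equiv.Perm ℕ, σ ∉ A ↔ ∃ l, U l ∧ Extends σ l

/-- The orbit equivalence relation of the pointwise stabilizer of `B` in `G`. -/
def SameOrbit (G : Subgroup (Equiv.Perm ℕ)) (B : Finset ℕ) (x y : ℕ) : Prop :=
  ∃ g ∈ G, (∀ b ∈ B, g b = b) ∧ g x = y

theorem oligomorphic {G : Subgroup (Equiv.Perm ℕ)} (hG : IsMCG G) (B : Finset ℕ) :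
    ∃ F : Finset ℕ, ∀ y, ∃ x ∈ F, SameOrbit G B x y := by
  by_contra hB
  push Not at hB
  obtain ⟨H, hle, hH, hne⟩ := exists_overgroup G hG.1 B hB
  exact hG.2 H hH (lt_of_le_of_ne hle (Ne.symm hne))

theorem not_closedSet {G : Subgroup (Equiv.Perm ℕ)} (hG : IsMCG G) :
    ¬ ClosedSet (G : Set (Equiv.Perm ℕ)) := by
  rintro ⟨C, hC, hCG⟩
  have hcl : ∀ σ : Equiv.Perm ℕ, σ ∉ G →
      ∃ n : ℕ, ∀ τ : Equiv.Perm ℕ, (∀ i < n, τ i = σ i) → τ ∉ G := by
    intro σ hσ
    have h1 : (σ : ℕ → ℕ) ∉ C := fun h => hσ ((hCG σ).2 h)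
    by_contra hcon
    push Not at hcon
    choose τ h2 h3 using hcon
    apply h1
    refine hC.mem_of_tendsto (f := fun n => ((τ n : Equiv.Perm ℕ) : ℕ → ℕ)) (b := Filter.atTop) ?_
      (Filter.Eventually.of_forall fun n => (hCG (τ n)).1 (h3 n))
    rw [tendsto_pi_nhds]
    intro i
    apply tendsto_const_nhds.congr'
    filter_upwards [Filter.eventually_gt_atTop i] with n hn
    exact (h2 n i hn).symm
  obtain ⟨g, hg, hg1, hinf⟩ := exists_infinite_fix G hcl (oligomorphic hG)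
  exact hinf (hG.1 g hg hg1)

theorem Pi01.closedSet {A : Set (Equiv.Perm ℕ)} (hA : Pi01 A) : ClosedSet A := by
  obtain ⟨U, -, hU⟩ := hA
  refine ⟨{f | ∃ l, U l ∧ ∀ (i : ℕ) (hi : i < l.length), f i = l[i]}ᶜ, ?_, ?_⟩
  · rw [isClosed_compl_iff]
    have h1 : {f : ℕ → ℕ | ∃ l, U l ∧ ∀ (i : ℕ) (hi : i < l.length), f i = l[i]} =
        ⋃ l ∈ {l | U l}, ⋂ i : Fin l.length, {f | f i = l[i]} := by
      ext f
      simp only [Set.mem_ofPred_eq, Set.mem_iUnion, Set.mem_iInter, exists_prop]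
      constructor
      · rintro ⟨l, h2, h3⟩
        exact ⟨l, h2, fun i => h3 i i.2⟩
      · rintro ⟨l, h2, h3⟩
        exact ⟨l, h2, fun i hi => h3 ⟨i, hi⟩⟩
    rw [h1]
    refine isOpen_biUnion fun l _ => isOpen_iInter_of_finite fun i => ?_
    have h2 : IsOpen ((fun f : ℕ → ℕ => f (i : ℕ)) ⁻¹' {l[(i : ℕ)]}) :=
      (isOpen_discrete _).preimage (continuous_apply (i : ℕ))
    exact h2
  · intro σ
    have h1 := hU σ
    rw [Set.mem_compl_iff, Set.mem_ofPred_eq, ← not_iff_not, not_not]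
    exact h1


end Pool.Agent.H79.MCG
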