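import Pool.Agent.H79.MCG.Words

/-!
# The closed path of a fixed point of a cyclically reduced word
-/

set_option autoImplicit false

namespace Pool.Agent.H79.MCG

open Set

theorem path {h : Equiv.Perm ℕ} {τ f o : ℕ → ℕ} (hτ : Function.Injective τ)
    (hfo : ∀ x, (f x = x ∧ o x = h x) ∨ (f x = h x ∧ o x = x))
    {b : ℕ → Equiv.Perm ℕ × Bool} {m : ℕ} (hm : 0 < m) (hb : Function.Periodic b m)
    (hred : ∀ j, (b j).1 = 1 → (b (j + 1)).2 = (b j).2) {T : ℕ}
    (hT : ∀ j x, T ≤ τ x → (∀ g : Equiv.Perm ℕ, g = 1 ∨ g = (b j).1 ∨ g = (b j).1⁻¹ →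
      f x ≠ g (o x) ∧ ∀ x', τ x' < τ x → f x ≠ g x' ∧ f x ≠ g (h x')) ∧
      ((b j).1 ≠ 1 → (b j).1 (f x) ≠ f x))
    {u : ℕ → ℕ} (hu : ∀ j, u (j + 1) = blk h (b j) (u j)) (hum : Function.Periodic u m) :
    ∃ X : ℕ → ℕ, (∀ j, u j = X j ∨ u j = h (X j)) ∧ ∀ j, τ (X j) < T := by
  set X : ℕ → ℕ := fun j => if (b j).2 then u j else h⁻¹ (u j) with hXdef
  set v : ℕ → ℕ := fun j => sg h (b j).2 (u j) with hvdef
  have huv : ∀ j, u (j + 1) = (b j).1 (v j) := fun j => by rw [hu]; rfl
  have hX : ∀ j, ((b j).2 = true ∧ u j = X j ∧ v j = h (X j)) ∨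
      ((b j).2 = false ∧ v j = X j ∧ u j = h (X j)) := by
    intro j
    rcases hbj : (b j).2 with _ | _
    · right
      refine ⟨rfl, ?_, ?_⟩
      · simp [hXdef, hvdef, sg, hbj]
      · simp [hXdef, hbj]
    · left
      refine ⟨rfl, ?_, ?_⟩
      · simp [hXdef, hbj]
      · simp [hXdef, hvdef, sg, hbj]
  have hXper : Function.Periodic X m := by
    intro j
    simp only [hXdef, hb j, hum j]
  have hmem : ∀ j, u j = X j ∨ u j = h (X j) := fun j => by
    rcases hX j with h1 | h1
    · exact Or.inl h1.2.1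
    · exact Or.inr h1.2.2
  have hmem' : ∀ j, v j = X j ∨ v j = h (X j) := fun j => by
    rcases hX j with h1 | h1
    · exact Or.inr h1.2.2
    · exact Or.inl h1.2.1
  refine ⟨X, hmem, ?_⟩
  obtain ⟨j0, -, hj0⟩ := Finset.exists_max_image (Finset.range m) (fun j => τ (X j))
    ⟨0, Finset.mem_range.2 hm⟩
  have hmax0 : ∀ i, τ (X i) ≤ τ (X j0) := by
    intro i
    rw [← hXper.map_mod_nat i]
    exact hj0 _ (Finset.mem_range.2 (Nat.mod_lt _ hm))
  obtain ⟨j, hj⟩ : ∃ j, j + 1 = j0 + m := ⟨j0 + m - 1, by omega⟩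
  have hmax : ∀ i, τ (X i) ≤ τ (X (j + 1)) := by
    intro i
    rw [hj, hXper j0]
    exact hmax0 i
  suffices hlt : τ (X (j + 1)) < T from fun i => (hmax i).trans_lt hlt
  by_contra hge
  push Not at hge
  set x := X (j + 1) with hx
  have h1 : f x ≠ (1 : Equiv.Perm ℕ) (o x) := ((hT 0 x hge).1 1 (Or.inl rfl)).1
  rw [Equiv.Perm.one_apply] at h1
  have hxh : h x ≠ x := by
    intro hxx
    rcases hfo x with h2 | h2
    · exact h1 (by rw [h2.1, h2.2, hxx])
    · exact h1 (by rw [h2.1, h2.2, hxx])
  -- the fresh endpoint is one of the two endpoints of the edge `j + 1`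
  have hcase : f x = v (j + 1) ∨ f x = u (j + 1) := by
    rcases hfo x with h2 | h2 <;> rcases hX (j + 1) with h3 | h3
    · right; rw [h2.1, h3.2.1]
    · left; rw [h2.1, h3.2.1]
    · left; rw [h2.1, h3.2.2]
    · right; rw [h2.1, h3.2.2]
  rcases hcase with hc | hc
  · -- the path leaves the fresh endpoint
    have h2 := huv (j + 1)
    rw [← hc] at h2
    have hg := (hT (j + 1) x hge).1 _ (Or.inr (Or.inr rfl))
    have h3 : f x = (b (j + 1)).1⁻¹ (u (j + 1 + 1)) := by rw [h2]; simp
    rcases (hmax (j + 1 + 1)).lt_or_eq with hlt | heq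
    · rcases hmem (j + 1 + 1) with h4 | h4
      · rw [h4] at h3
        exact (hg.2 _ hlt).1 h3
      · rw [h4] at h3
        exact (hg.2 _ hlt).2 h3
    · have hxx : X (j + 1 + 1) = x := hτ heq
      have hend : u (j + 1 + 1) = f x := by
        rcases hfo x with h5 | h5 <;> rcases hmem (j + 1 + 1) with h4 | h4
        · rw [h4, hxx, h5.1]
        · exfalso
          rw [h4, hxx, ← h5.2] at h3
          exact hg.1 h3
        · exfalso
          rw [h4, hxx] at h3
          rw [← h5.2] at h3
          exact hg.1 (by rw [h5.2] at h3; rw [h5.2]; exact h3)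
        · rw [h4, hxx, h5.1]
      have hfix : (b (j + 1)).1 (f x) = f x := by rw [← h2, hend]
      by_cases hone : (b (j + 1)).1 = 1
      · have hε := hred (j + 1) hone
        rcases hX (j + 1) with h6 | h6 <;> rcases hX (j + 1 + 1) with h7 | h7
        · apply hxh
          have e1 : f x = h x := by rw [hc, h6.2.2]
          rw [← e1, ← hend, h7.2.1, hxx]
        · rw [h6.1, h7.1] at hε; exact absurd hε (by simp)
        · rw [h6.1, h7.1] at hε; exact absurd hε (by simp)
        · apply hxh
          have e1 : f x = x := by rw [hc, h6.2.1]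
          have e2 : f x = h x := by rw [← hend, h7.2.2, hxx]
          rw [← e2, e1]
      · exact (hT (j + 1) x hge).2 hone hfix
  · -- the path arrives at the fresh endpoint
    have h2 := huv j
    rw [← hc] at h2
    have hg := (hT j x hge).1 _ (Or.inr (Or.inl rfl))
    rcases (hmax j).lt_or_eq with hlt | heq
    · rcases hmem' j with h4 | h4
      · rw [h4] at h2
        exact (hg.2 _ hlt).1 h2
      · rw [h4] at h2
        exact (hg.2 _ hlt).2 h2
    · have hxx : X j = x := hτ heq
      have hend : v j = f x := by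
        rcases hfo x with h5 | h5 <;> rcases hmem' j with h4 | h4
        · rw [h4, hxx, h5.1]
        · exfalso
          rw [h4, hxx, ← h5.2] at h2
          exact hg.1 h2
        · exfalso
          rw [h4, hxx] at h2
          exact hg.1 (by rw [h5.2]; exact h2)
        · rw [h4, hxx, h5.1]
      have hfix : (b j).1 (f x) = f x := by rw [← hend, ← h2, hend]
      by_cases hone : (b j).1 = 1
      · have hε := hred j hone
        rcases hX j with h6 | h6 <;> rcases hX (j + 1) with h7 | h7
        · apply hxh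
          have e1 : f x = x := by rw [hc, h7.2.1]
          have e2 : f x = h x := by rw [← hend, h6.2.2, hxx]
          rw [← e2, e1]
        · rw [h6.1, h7.1] at hε; exact absurd hε (by simp)
        · rw [h6.1, h7.1] at hε; exact absurd hε (by simp)
        · apply hxh
          have e1 : f x = h x := by rw [hc, h7.2.2]
          have e2 : f x = x := by rw [← hend, h6.2.1, hxx]
          rw [← e1, e2]
      · exact (hT j x hge).2 hone hfix

end Pool.Agent.H79.MCG
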