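import Pool.Agent.H79.MCG.Build
import Pool.Agent.H79.MCG.Path

/-!
# A cofinitary group some finite pointwise stabilizer of which has infinitely many orbits is not
maximal
-/

set_option autoImplicit false

namespace Pool.Agent.H79.MCG

open Set

/-- `y` lies in the orbit of `x` under the pointwise stabilizer of `B` in `G`. -/
def Rel (G : Subgroup (Equiv.Perm ℕ)) (B : Finset ℕ) (x y : ℕ) : Prop :=
  ∃ u ∈ G, (∀ b ∈ B, u b = b) ∧ u x = y

theorem exists_reps (G : Subgroup (Equiv.Perm ℕ)) (B : Finset ℕ) :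
    ∃ γ : ℕ → ℕ → ℕ, (∀ v, γ 0 v = v) ∧ ∀ g ∈ G, ∃ i, ∀ v, Rel G B (γ i v) (g v) := by
  classical
  obtain ⟨e, he⟩ := exists_surjective_nat (B → ℕ)
  have hrep : ∀ c : B → ℕ, ∃ r : Equiv.Perm ℕ, ∀ g ∈ G, (∀ b : B, g⁻¹ (b : ℕ) = c b) →
      r ∈ G ∧ ∀ b : B, r⁻¹ (b : ℕ) = c b := by
    intro c
    by_cases hc : ∃ g ∈ G, ∀ b : B, g⁻¹ (b : ℕ) = c b
    · obtain ⟨g, hg, hgc⟩ := hc
      exact ⟨g, fun _ _ _ => ⟨hg, hgc⟩⟩
    · exact ⟨1, fun g hg hgc => absurd ⟨g, hg, hgc⟩ hc⟩
  choose r hr using hrep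
  refine ⟨fun i => Nat.casesOn i (fun v => v) (fun i v => r (e i) v), fun v => rfl, ?_⟩
  intro g hg
  obtain ⟨i, hi⟩ := he (fun b : B => g⁻¹ (b : ℕ))
  obtain ⟨h1, h2⟩ := hr (e i) g hg (fun b => by rw [hi])
  refine ⟨i + 1, fun v => ⟨g * (r (e i))⁻¹, G.mul_mem hg (G.inv_mem h1), ?_, ?_⟩⟩
  · intro b hb
    have h3 : (r (e i))⁻¹ b = g⁻¹ b := (h2 ⟨b, hb⟩).trans (congrFun hi ⟨b, hb⟩)
    rw [Equiv.Perm.mul_apply, h3]
    simp
  · show (g * (r (e i))⁻¹) (r (e i) v) = g v
    simp

theorem finite_fix_conj {k : Equiv.Perm ℕ} (c : Equiv.Perm ℕ)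
    (h : {x : ℕ | (c * k * c⁻¹) x = x}.Finite) : {x : ℕ | k x = x}.Finite := by
  refine (h.preimage (f := c) c.injective.injOn).subset ?_
  intro x hx
  simp only [mem_ofPred_eq] at hx
  simp [hx]

theorem exists_bound {P : Equiv.Perm ℕ × Bool → ℕ → Prop} {τ : ℕ → ℕ}
    (l : List (Equiv.Perm ℕ × Bool)) (h : ∀ c ∈ l, ∃ T, ∀ x, T ≤ τ x → P c x) :
    ∃ T, ∀ c ∈ l, ∀ x, T ≤ τ x → P c x := by
  induction l with
  | nil => exact ⟨0, by simp⟩
  | cons a l ih =>
    obtain ⟨T, hT⟩ := ih (fun c hc => h c (List.mem_cons_of_mem _ hc))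
    obtain ⟨T', hT'⟩ := h a List.mem_cons_self
    refine ⟨max T T', fun c hc x hx => ?_⟩
    rcases List.mem_cons.1 hc with rfl | hc
    · exact hT' x (le_trans (le_max_right _ _) hx)
    · exact hT c hc x (le_trans (le_max_left _ _) hx)

theorem finite_fix_ev {G : Subgroup (Equiv.Perm ℕ)}
    (hG : ∀ g ∈ G, g ≠ 1 → {x : ℕ | g x = x}.Finite) {h : Equiv.Perm ℕ} {τ f o : ℕ → ℕ}
    (hτ : Function.Injective τ)
    (hfo : ∀ x, (f x = x ∧ o x = h x) ∨ (f x = h x ∧ o x = x))
    (hK : ∀ g ∈ G, ∃ T, ∀ x, T ≤ τ x →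
      f x ≠ g (o x) ∧ ∀ x', τ x' < τ x → f x ≠ g x' ∧ f x ≠ g (h x'))
    {l : List (Equiv.Perm ℕ × Bool)} (hne : l ≠ []) (hl : ∀ b ∈ l, b.1 ∈ G) (hc : CycRed l) :
    {x : ℕ | ev h l x = x}.Finite := by
  have hm : 0 < l.length := List.length_pos_iff.2 hne
  -- the bound
  have hbd : ∃ T, ∀ c ∈ l, ∀ x, T ≤ τ x →
      (∀ g : Equiv.Perm ℕ, g = 1 ∨ g = c.1 ∨ g = c.1⁻¹ →
        f x ≠ g (o x) ∧ ∀ x', τ x' < τ x → f x ≠ g x' ∧ f x ≠ g (h x')) ∧
        (c.1 ≠ 1 → c.1 (f x) ≠ f x) := by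
    refine exists_bound l fun c hc => ?_
    obtain ⟨T1, hT1⟩ := hK 1 G.one_mem
    obtain ⟨T2, hT2⟩ := hK c.1 (hl c hc)
    obtain ⟨T3, hT3⟩ := hK c.1⁻¹ (G.inv_mem (hl c hc))
    have h4 : ∃ T4, ∀ x, T4 ≤ τ x → (c.1 ≠ 1 → c.1 (f x) ≠ f x) := by
      by_cases hone : c.1 = 1
      · exact ⟨0, fun _ _ h => absurd hone h⟩
      · have hfin : {x : ℕ | c.1 (f x) = f x}.Finite := by
          have h5 := hG _ (hl c hc) hone
          refine (h5.union (h5.preimage (f := h) h.injective.injOn)).subset fun x hx => ?_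
          rcases hfo x with h6 | h6
          · left
            rw [mem_ofPred_eq, h6.1] at hx
            exact hx
          · right
            rw [mem_ofPred_eq, h6.1] at hx
            exact hx
        obtain ⟨M, hM⟩ := (hfin.image τ).bddAbove
        refine ⟨M + 1, fun x hx _ hfix => ?_⟩
        have := hM (mem_image_of_mem τ hfix)
        omega
    obtain ⟨T4, hT4⟩ := h4
    refine ⟨max (max T1 T2) (max T3 T4), fun x hx => ⟨?_, hT4 x (by omega)⟩⟩
    rintro g (rfl | rfl | rfl)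
    · exact hT1 x (by omega)
    · exact hT2 x (by omega)
    · exact hT3 x (by omega)
  obtain ⟨T, hT⟩ := hbd
  -- the periodic word
  set b : ℕ → Equiv.Perm ℕ × Bool := fun j => l[j % l.length]'(Nat.mod_lt _ hm) with hbdef
  have hbmem : ∀ j, b j ∈ l := fun j => List.getElem_mem _
  have hbper : Function.Periodic b l.length := by
    intro j
    simp only [hbdef, Nat.add_mod_right]
  have hred : ∀ j, (b j).1 = 1 → (b (j + 1)).2 = (b j).2 := by
    intro j hj
    by_contra hne2
    have h1 : (b (j + 1)).2 = !(b j).2 := by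
      cases h2 : (b (j + 1)).2 <;> cases h3 : (b j).2 <;> simp_all
    have hlen2 : 2 ≤ l.length := by
      by_contra hlt
      have h2 : l.length = 1 := by omega
      apply hne2
      have h3 := hbper j
      rw [h2] at h3
      rw [h3]
    have hrl : (l.rotate j).length = l.length := List.length_rotate l j
    rcases hrot : l.rotate j with _ | ⟨c0, _ | ⟨c1, l'⟩⟩
    · rw [hrot] at hrl; simp at hrl; omega
    · rw [hrot] at hrl; simp at hrl; omega
    · have e0 : c0 = b j := by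
        have h4 := List.getElem_rotate l j 0 (by rw [hrl]; omega)
        simp only [hrot, List.getElem_cons_zero, Nat.zero_add] at h4
        exact h4
      have e1 : c1 = b (j + 1) := by
        have h4 := List.getElem_rotate l j 1 (by rw [hrl]; omega)
        simp only [hrot, List.getElem_cons_succ, List.getElem_cons_zero] at h4
        rw [h4]
        simp only [hbdef, Nat.add_comm 1 j]
      apply hc j (b j).2 (b (j + 1)).1 l'
      rw [hrot, e0, e1, ← h1]
      congr 1
      rw [← hj]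
  have hsub : {x : ℕ | ev h l x = x} ⊆
      {x | τ x < T} ∪ h '' {x | τ x < T} := by
    intro z hz
    rw [mem_ofPred_eq] at hz
    set u : ℕ → ℕ := fun n => Nat.rec z (fun j p => blk h (b j) p) n with hudef
    have hu : ∀ j, u (j + 1) = blk h (b j) (u j) := fun j => rfl
    have htake : ∀ j ≤ l.length, ev h (l.take j) z = u j := by
      intro j
      induction j with
      | zero => intro _; rfl
      | succ j ih =>
        intro hj
        rw [List.take_succ_eq_append_getElem (by omega), ev_append, hu, ← ih (by omega)]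
        have hbj : b j = l[j] := by
          simp only [hbdef]
          congr 1
          exact Nat.mod_eq_of_lt (by omega)
        rw [hbj]
        simp [ev]
    have hum0 : u l.length = z := by
      rw [← htake l.length le_rfl, List.take_length, hz]
    have hum : Function.Periodic u l.length := by
      intro j
      induction j with
      | zero => rw [Nat.zero_add, hum0]; rfl
      | succ j ih =>
        rw [show j + 1 + l.length = (j + l.length) + 1 by ring, hu, ih, hbper, hu]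
    obtain ⟨X, h1, h2⟩ := path hτ hfo hm hbper hred
      (fun j x hx => hT (b j) (hbmem j) x hx) hu hum
    rcases h1 0 with h3 | h3
    · left
      show τ z < T
      have : z = X 0 := h3
      rw [this]; exact h2 0
    · right
      exact ⟨X 0, h2 0, h3.symm⟩
  have hfin : {x | τ x < T}.Finite := (finite_lt_nat T).preimage hτ.injOn
  exact (hfin.union (hfin.image h)).subset hsub

/-- If `G` is a cofinitary group and the pointwise stabilizer in `G` of the finite set `B` has
infinitely many orbits, then `G` is properly contained in a cofinitary group. -/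
theorem exists_overgroup (G : Subgroup (Equiv.Perm ℕ))
    (hG : ∀ g ∈ G, g ≠ 1 → {x : ℕ | g x = x}.Finite) (B : Finset ℕ)
    (hB : ∀ F : Finset ℕ, ∃ y, ∀ x ∈ F, ¬ Rel G B x y) :
    ∃ H : Subgroup (Equiv.Perm ℕ), G ≤ H ∧
      (∀ h ∈ H, h ≠ 1 → {x : ℕ | h x = x}.Finite) ∧ H ≠ G := by
  obtain ⟨γ, hγ0, hγ⟩ := exists_reps G B
  obtain ⟨h, τ, f, o, hτ, hfo, h1, h2⟩ := build hB γ
    (fun v => ⟨1, G.one_mem, by simp, by simp [hγ0]⟩)
  have hK : ∀ g ∈ G, ∃ T, ∀ x, T ≤ τ x →
      f x ≠ g (o x) ∧ ∀ x', τ x' < τ x → f x ≠ g x' ∧ f x ≠ g (h x') := by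
    intro g hg
    obtain ⟨i, hi⟩ := hγ g hg
    refine ⟨i, fun x hx => ⟨fun he => ?_, fun x' hx' => ⟨fun he => ?_, fun he => ?_⟩⟩⟩
    · exact h1 x i hx (he ▸ hi (o x))
    · exact (h2 x x' hx' i hx).1 (he ▸ hi x')
    · exact (h2 x x' hx' i hx).2 (he ▸ hi (h x'))
  refine ⟨Subgroup.closure ((G : Set (Equiv.Perm ℕ)) ∪ {h}), ?_, ?_, ?_⟩
  · intro g hg
    exact Subgroup.subset_closure (Or.inl hg)
  · intro k hk hk1
    rcases nice_of_mem G h hk with ⟨c, hc⟩ | ⟨c, l, hne, hl, hcl, hcyc⟩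
    · apply finite_fix_conj c
      apply hG _ hc
      intro h3
      apply hk1
      have : k = c⁻¹ * (c * k * c⁻¹) * c := by group
      rw [this, h3]
      group
    · apply finite_fix_conj c
      rw [hcl]
      exact finite_fix_ev hG hτ hfo hK hne hl hcyc
  · intro heq
    have hh : h ∈ G := by
      rw [← heq]
      exact Subgroup.subset_closure (Or.inr rfl)
    have h3 := finite_fix_ev hG hτ hfo hK (l := [(h⁻¹, true)]) (by simp)
      (by intro b hb; rw [List.mem_singleton] at hb; rw [hb]; exact G.inv_mem hh)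
      (by
        intro n ε g l' h4
        have := congrArg List.length h4
        simp at this)
    have h4 : {x : ℕ | ev h [(h⁻¹, true)] x = x} = univ := by
      ext x
      simp [ev, blk, sg]
    rw [h4] at h3
    exact infinite_univ h3

end Pool.Agent.H79.MCG
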