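import Mathlib

/-!
# Cyclically reduced words in a group of permutations and one more permutation
-/

set_option autoImplicit false

namespace Pool.Agent.H79.MCG

open Set

/-- The power `h` or `h⁻¹`. -/
def sg (h : Equiv.Perm ℕ) (ε : Bool) : Equiv.Perm ℕ := if ε then h else h⁻¹

/-- The permutation given by the block `(g, ε)`: first `h ^ (± 1)`, then `g`. -/
def blk (h : Equiv.Perm ℕ) (b : Equiv.Perm ℕ × Bool) : Equiv.Perm ℕ := b.1 * sg h b.2

/-- The permutation given by a list of blocks; the first block is applied first. -/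
def ev (h : Equiv.Perm ℕ) : List (Equiv.Perm ℕ × Bool) → Equiv.Perm ℕ
  | [] => 1
  | b :: l => ev h l * blk h b

theorem ev_append (h : Equiv.Perm ℕ) (l l' : List (Equiv.Perm ℕ × Bool)) :
    ev h (l ++ l') = ev h l' * ev h l := by
  induction l with
  | nil => simp [ev]
  | cons b l ih => rw [List.cons_append, ev, ev, ih, mul_assoc]

/-- A list of blocks is cyclically reduced if no rotation of it starts with
`h ^ ε` followed by `h ^ (-ε)`. -/
def CycRed (l : List (Equiv.Perm ℕ × Bool)) : Prop :=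
  ∀ (n : ℕ) (ε : Bool) (g : Equiv.Perm ℕ) (l' : List (Equiv.Perm ℕ × Bool)),
    l.rotate n ≠ (1, ε) :: (g, !ε) :: l'

theorem ev_rotate (h : Equiv.Perm ℕ) (n : ℕ) : ∀ l : List (Equiv.Perm ℕ × Bool),
    ∃ c : Equiv.Perm ℕ, ev h (l.rotate n) = c * ev h l * c⁻¹ := by
  induction n with
  | zero => intro l; exact ⟨1, by simp⟩
  | succ n ih =>
    intro l
    rcases l with _ | ⟨b, l⟩
    · exact ⟨1, by simp⟩
    · rw [List.rotate_cons_succ]
      obtain ⟨c, hc⟩ := ih (l ++ [b])
      refine ⟨c * blk h b, ?_⟩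
      rw [hc, ev_append, ev, ev, ev]
      group

/-- The property that we prove for all elements of the group generated by `G` and `h`. -/
def Nice (G : Subgroup (Equiv.Perm ℕ)) (h k : Equiv.Perm ℕ) : Prop :=
  (∃ c : Equiv.Perm ℕ, c * k * c⁻¹ ∈ G) ∨
    ∃ (c : Equiv.Perm ℕ) (l : List (Equiv.Perm ℕ × Bool)), l ≠ [] ∧ (∀ b ∈ l, b.1 ∈ G) ∧
      c * k * c⁻¹ = ev h l ∧ CycRed l

theorem Nice.conj {G : Subgroup (Equiv.Perm ℕ)} {h k : Equiv.Perm ℕ} (c : Equiv.Perm ℕ)
    (hk : Nice G h (c * k * c⁻¹)) : Nice G h k := by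
  rcases hk with ⟨d, hd⟩ | ⟨d, l, h1, h2, h3, h4⟩
  · refine Or.inl ⟨d * c, ?_⟩
    have : d * c * k * (d * c)⁻¹ = d * (c * k * c⁻¹) * d⁻¹ := by group
    rw [this]; exact hd
  · refine Or.inr ⟨d * c, l, h1, h2, ?_, h4⟩
    have : d * c * k * (d * c)⁻¹ = d * (c * k * c⁻¹) * d⁻¹ := by group
    rw [this]; exact h3

theorem sg_not_mul (h : Equiv.Perm ℕ) (ε : Bool) : sg h (!ε) * sg h ε = 1 := by
  cases ε <;> simp [sg]

/-- Multiplying from the left by an element of `G`. -/
theorem ev_mul_left (G : Subgroup (Equiv.Perm ℕ)) (h : Equiv.Perm ℕ)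
    (l : List (Equiv.Perm ℕ × Bool)) (hl : ∀ b ∈ l, b.1 ∈ G) (hne : l ≠ []) {g : Equiv.Perm ℕ}
    (hg : g ∈ G) : ∃ l' : List (Equiv.Perm ℕ × Bool), l'.length = l.length ∧ (∀ b ∈ l', b.1 ∈ G) ∧
      g * ev h l = ev h l' := by
  rcases List.eq_nil_or_concat l with h0 | ⟨l1, b, rfl⟩
  · exact absurd h0 hne
  · refine ⟨l1.concat (g * b.1, b.2), by simp, ?_, ?_⟩
    · intro c hc
      rw [List.concat_eq_append, List.mem_append, List.mem_singleton] at hc
      rcases hc with hc | rfl
      · exact hl c (by rw [List.concat_eq_append]; exact List.mem_append_left _ hc)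
      · exact G.mul_mem hg (hl b (by rw [List.concat_eq_append]; simp))
    · rw [List.concat_eq_append, List.concat_eq_append, ev_append, ev_append, ← mul_assoc]
      simp only [ev, blk, one_mul, mul_assoc]

theorem nice_ev (G : Subgroup (Equiv.Perm ℕ)) (h : Equiv.Perm ℕ) (n : ℕ) :
    ∀ l : List (Equiv.Perm ℕ × Bool), l.length = n → (∀ b ∈ l, b.1 ∈ G) → Nice G h (ev h l) := by
  induction n using Nat.strong_induction_on with
  | _ n ih =>
    intro l hn hl
    rcases eq_or_ne l [] with rfl | hne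
    · exact Or.inl ⟨1, by simp [ev]⟩
    · by_cases hc : CycRed l
      · exact Or.inr ⟨1, l, hne, hl, by simp, hc⟩
      · unfold CycRed at hc
        push Not at hc
        obtain ⟨m, ε, g, l', hrot⟩ := hc
        obtain ⟨c, hc⟩ := ev_rotate h m l
        apply Nice.conj c
        rw [← hc, hrot]
        have hmem : ∀ b ∈ l.rotate m, b.1 ∈ G := fun b hb => hl b (List.mem_rotate.1 hb)
        have hg : g ∈ G := hmem (g, !ε) (by rw [hrot]; simp)
        have hl' : ∀ b ∈ l', b.1 ∈ G := fun b hb => hmem b (by rw [hrot]; simp [hb])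
        have hlen : l'.length + 2 = n := by
          rw [← hn, ← List.length_rotate l m, hrot]; simp
        have hev : ev h ((1, ε) :: (g, !ε) :: l') = ev h l' * g := by
          simp only [ev, blk, one_mul, mul_assoc, sg_not_mul, mul_one]
        rw [hev]
        apply Nice.conj g
        have h1 : g * (ev h l' * g) * g⁻¹ = g * ev h l' := by group
        rw [h1]
        rcases eq_or_ne l' [] with rfl | hne'
        · exact Or.inl ⟨1, by simpa [ev] using hg⟩
        · obtain ⟨l2, h2, h3, h4⟩ := ev_mul_left G h l' hl' hne' hg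
          rw [h4]
          exact ih l2.length (by omega) l2 rfl h3

/-- Normal forms. -/
theorem exists_form (G : Subgroup (Equiv.Perm ℕ)) (h : Equiv.Perm ℕ) {k : Equiv.Perm ℕ}
    (hk : k ∈ Subgroup.closure ((G : Set (Equiv.Perm ℕ)) ∪ {h})) :
    ∃ (l : List (Equiv.Perm ℕ × Bool)) (g : Equiv.Perm ℕ), (∀ b ∈ l, b.1 ∈ G) ∧ g ∈ G ∧
      k = ev h l * g := by
  induction hk using Subgroup.closure_induction_right with
  | one => exact ⟨[], 1, by simp, G.one_mem, by simp [ev]⟩
  | mul_right x hx y hy ih =>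
    obtain ⟨l, g, hl, hg, rfl⟩ := ih
    rcases hy with hy | hy
    · exact ⟨l, g * y, hl, G.mul_mem hg hy, by rw [mul_assoc]⟩
    · rw [mem_singleton_iff] at hy
      subst hy
      refine ⟨(g, true) :: l, 1, ?_, G.one_mem, by simp [ev, blk, sg, mul_assoc]⟩
      intro b hb
      rcases List.mem_cons.1 hb with rfl | hb
      · exact hg
      · exact hl b hb
  | mul_inv_cancel x hx y hy ih =>
    obtain ⟨l, g, hl, hg, rfl⟩ := ih
    rcases hy with hy | hy
    · exact ⟨l, g * y⁻¹, hl, G.mul_mem hg (G.inv_mem hy), by rw [mul_assoc]⟩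
    · rw [mem_singleton_iff] at hy
      subst hy
      refine ⟨(g, false) :: l, 1, ?_, G.one_mem, by simp [ev, blk, sg, mul_assoc]⟩
      intro b hb
      rcases List.mem_cons.1 hb with rfl | hb
      · exact hg
      · exact hl b hb

theorem nice_of_mem (G : Subgroup (Equiv.Perm ℕ)) (h : Equiv.Perm ℕ) {k : Equiv.Perm ℕ}
    (hk : k ∈ Subgroup.closure ((G : Set (Equiv.Perm ℕ)) ∪ {h})) : Nice G h k := by
  obtain ⟨l, g, hl, hg, rfl⟩ := exists_form G h hk
  apply Nice.conj g
  have h1 : g * (ev h l * g) * g⁻¹ = g * ev h l := by group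
  rw [h1]
  rcases eq_or_ne l [] with rfl | hne
  · exact Or.inl ⟨1, by simpa [ev] using hg⟩
  · obtain ⟨l2, -, h3, h4⟩ := ev_mul_left G h l hl hne hg
    rw [h4]
    exact nice_ev G h l2.length l2 rfl h3

end Pool.Agent.H79.MCG
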